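import Pool.Agent.Work.MP_3411af_co.TwinMain

set_option autoImplicit false

open Filter Topology

namespace Pool.Agent.Results.MP_3411af_co.CoverNumbers

open Pool.Agent.Work.MP_3411af_co

/-- There are finite graphs `G n` (forests of stars) whose affine and spherical cover numbers are
finite and positive and such that the quotient of the spherical cover number by the affine cover
number tends to zero. -/
theorem result :
    ∃ (V : ℕ → Type) (_ : ∀ n, Finite (V n)) (G : ∀ n, SimpleGraph (V n)),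
      (∀ n, affineCoverNumber (G n) ≠ 0 ∧ affineCoverNumber (G n) ≠ ⊤ ∧
        sphericalCoverNumber (G n) ≠ ⊤) ∧
      Tendsto (fun n => ((sphericalCoverNumber (G n)).toNat : ℝ) /
        ((affineCoverNumber (G n)).toNat : ℝ)) atTop (𝓝 0) := by
  classical
  let T : ℕ → ℕ := fun n ↦ n + 1
  have hT : ∀ n, 0 < T n := fun n ↦ Nat.succ_pos n
  have hge : ∀ n, ((T n ^ 4 : ℕ) : ℕ∞) ≤ affineCoverNumber (starGraph (KK (T n)) (DD (T n))) :=
    fun n => affine_ge (T n)
  have htop : ∀ n, affineCoverNumber (starGraph (KK (T n)) (DD (T n))) ≠ ⊤ := fun n => by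
    haveI := DD_inhab (hT n)
    exact affine_lt_top
  have hsle : ∀ n, sphericalCoverNumber (starGraph (KK (T n)) (DD (T n))) ≤
      ((4 * T n ^ 2 * (SS (T n)).card : ℕ) : ℕ∞) := fun n => spherical_le (hT n)
  refine ⟨fun n => KK (T n) × Option (DD (T n)), fun n => inferInstance,
    fun n => starGraph (KK (T n)) (DD (T n)), fun n => ⟨?_, htop n, ?_⟩, ?_⟩
  · intro h0
    have h1 := hge n
    rw [h0] at h1
    have h2 : T n ^ 4 ≤ 0 := by exact_mod_cast h1
    have := pow_pos (hT n) 4
    omega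
  · exact ne_top_of_le_ne_top (ENat.coe_ne_top _) (hsle n)
  · have hratio : ∀ n, ((sphericalCoverNumber (starGraph (KK (T n)) (DD (T n)))).toNat : ℝ) /
        ((affineCoverNumber (starGraph (KK (T n)) (DD (T n)))).toNat : ℝ)
        ≤ 4 * (sqCount (13 * (T n) ^ 2 + 1) : ℝ) / (T n : ℝ) ^ 2 := by
      intro n
      have hTR : (0 : ℝ) < T n := by exact_mod_cast hT n
      have ha : (sphericalCoverNumber (starGraph (KK (T n)) (DD (T n)))).toNat ≤
          4 * T n ^ 2 * (SS (T n)).card := ENat.toNat_le_of_le_coe (hsle n)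
      have hb : T n ^ 4 ≤ (affineCoverNumber (starGraph (KK (T n)) (DD (T n)))).toNat := by
        have h1 := hge n
        rw [← ENat.coe_toNat (htop n)] at h1
        exact_mod_cast h1
      have hbp := pow_pos (hT n) 4
      have haR : ((sphericalCoverNumber (starGraph (KK (T n)) (DD (T n)))).toNat : ℝ) ≤
          4 * (T n : ℝ) ^ 2 * ((SS (T n)).card : ℝ) := by exact_mod_cast ha
      have hbR : (T n : ℝ) ^ 4 ≤
          ((affineCoverNumber (starGraph (KK (T n)) (DD (T n)))).toNat : ℝ) := by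
        exact_mod_cast hb
      have h1 : ((SS (T n)).card : ℝ) ≤ (sqCount (13 * (T n) ^ 2 + 1) : ℝ) := by
        exact_mod_cast card_SS_le (T n)
      calc ((sphericalCoverNumber (starGraph (KK (T n)) (DD (T n)))).toNat : ℝ) /
            ((affineCoverNumber (starGraph (KK (T n)) (DD (T n)))).toNat : ℝ)
          ≤ (4 * (T n : ℝ) ^ 2 * ((SS (T n)).card : ℝ)) / (T n : ℝ) ^ 4 :=
            div_le_div₀ (by positivity) haR (by positivity) hbR
        _ ≤ (4 * (T n : ℝ) ^ 2 * (sqCount (13 * (T n) ^ 2 + 1) : ℝ)) / (T n : ℝ) ^ 4 := by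
            gcongr
        _ = 4 * (sqCount (13 * (T n) ^ 2 + 1) : ℝ) / (T n : ℝ) ^ 2 := by
            field_simp
    rw [Metric.tendsto_atTop]
    intro ε hε
    obtain ⟨C, hC⟩ := sqCount_density (ε / 112) (by positivity)
    obtain ⟨N, hN⟩ := exists_nat_gt (8 * |C| / ε)
    refine ⟨N, fun n hn ↦ ?_⟩
    have hTR : (1 : ℝ) ≤ T n := by exact_mod_cast hT n
    have hTN : (N : ℝ) < T n := by
      have : N < n + 1 := Nat.lt_succ_of_le hn
      exact_mod_cast this
    rw [Real.dist_eq, sub_zero, abs_of_nonneg (by positivity)]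
    refine (hratio n).trans_lt ?_
    have hTpos : (0 : ℝ) < (T n : ℝ) ^ 2 := by positivity
    rw [div_lt_iff₀ hTpos]
    have h1 := hC (13 * (T n) ^ 2 + 1)
    push_cast at h1
    have h2 : (8 * |C|) < ε * (T n : ℝ) ^ 2 := by
      have h3 : 8 * |C| < ε * T n := by
        have := hN.trans hTN
        rw [div_lt_iff₀ hε] at this
        linarith
      have h3' : (T n : ℝ) ≤ (T n : ℝ) ^ 2 := by nlinarith
      have h3'' : ε * (T n : ℝ) ≤ ε * (T n : ℝ) ^ 2 := mul_le_mul_of_nonneg_left h3' hε.le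
      linarith
    have h4 : C ≤ |C| := le_abs_self C
    have h5 : (1 : ℝ) ≤ (T n : ℝ) ^ 2 := by nlinarith
    have h6 : ε / 112 * (13 * (T n : ℝ) ^ 2 + 1) ≤ ε / 8 * (T n : ℝ) ^ 2 := by nlinarith
    linarith

end Pool.Agent.Results.MP_3411af_co.CoverNumbers
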